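import Pool.Agent.Q66.SH.Defs

/-!
# Isometric embeddings of Schatten classes: statements (project SH of helper66, row MP_dcad15_an)

CLAIM.  For `0 < p, q ≤ ∞`, `p ≠ q`, the Schatten class `S_q(H)` of a separable infinite dimensional
complex Hilbert space `H` embeds isometrically into `S_p(H)` if and only if `q = 2`.

## Paper proof

`q = 2`: `S_2(H)` is a Hilbert space, and `v ↦ ⟨u, ·⟩ v` embeds `H` into every `S_p(H)` (job POS).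

`q ≠ 2`.  Let `A_n = J(E_n)`, `E_n` the projection onto the basis vector `b_n`.  All sums
`∑_{i<L} ε_i c_i A_(σ i)` (`σ` injective, signs `ε_i`, `c_i ≥ 0` decreasing) have norm `‖c‖_q` (TEST).
For a family `F` of `M` indices the average over the signs of
`∑_{i<k} ‖X b_i‖² + ‖X* b_i‖²`, `X = ∑_{n ∈ F} ε_n A_n`, is the sum of these numbers for the `A_n` (SGN).
So if `q < 2` the normalised sum `M^(-1/q) X` is small on the first `k` basis vectors, for suitable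
signs and large `M` (ST1), and if `q > 2` most of the `A_n` themselves are small there, since
`‖X‖ ≤ M^(1/q)` for all signs (ST2).  By a gliding hump we obtain for every `N` and `η` elements
`C_0, …, C_{N-1}` of norm `1`, whose sum has norm `N^(1/q)`, and which are up to `η` block diagonal with
respect to successive blocks of basis vectors (GL1, GL2).  But the norm of a sum of `N` block diagonal
elements of norm about `1` is about `N^(1/p)` (UP, LOW).  So `p = q` (FIN).  The quasi-norm of `S_p` is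
computed with approximation numbers and Bernstein numbers.
-/

set_option autoImplicit false

open Filter Topology
open scoped ENNReal

namespace Pool.Agent.Q66.SH

/-! ### Approximation numbers -/

/-- JOB SVU.  Singular values are upper bounds of approximation numbers.
Proof. Take `F x = ∑_{j<n} s_j ⟨e_j,x⟩ f_j` (`F = ∑ j ∈ range n, (s j : ℂ) • rk1 (e j) (f j)`), of rank
`≤ n` (range in the span of `f '' range n`: `finrank_span_le_card`).  `(T-F) x` is the sum of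
`s_j ⟨e_j,x⟩ f_j` over `j ≥ n`; for finite partial sums
`‖∑ s_j ⟨e_j,x⟩ f_j‖² = ∑ s_j² |⟨e_j,x⟩|² ≤ s_n² ∑ |⟨e_j,x⟩|² ≤ s_n² ‖x‖²`
(`Orthonormal.sum_inner_products_le` = Bessel, orthonormality of `f`), pass to the limit;
`ContinuousLinearMap.opNorm_le_bound`. -/
def S_SVU : Prop := ∀ (H : Type) [NormedAddCommGroup H] [InnerProductSpace ℂ H] [CompleteSpace H]
  (T : H →L[ℂ] H) (s : ℕ → ℝ) (n : ℕ), HasSV T s → apx n T ≤ ENNReal.ofReal (s n)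

/-- JOB SVL.  Singular values are lower bounds of Bernstein numbers.
Proof. `V = span {e_0, …, e_n}`, of dimension `n+1` (`finrank_span_eq_card` with linear independence of
orthonormal vectors).  For `x = ∑_{j≤n} x_j e_j` one has `⟨e_j,x⟩ = x_j` for `j ≤ n` and `0` for `j > n`,
so `T x = ∑_{j≤n} s_j x_j f_j` (`hasSum_unique`, `hasSum_sum_of_ne_finset_zero`) and
`‖T x‖² = ∑_{j≤n} s_j² |x_j|² ≥ s_n² ‖x‖²`. -/
def S_SVL : Prop := ∀ (H : Type) [NormedAddCommGroup H] [InnerProductSpace ℂ H] [CompleteSpace H]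
  (T : H →L[ℂ] H) (s : ℕ → ℝ) (n : ℕ), HasSV T s → Bern T n (s n)

/-- JOB BA.  Bernstein numbers are at most the approximation numbers.
Proof. Let `V` be as in `Bern T n t` and `F` of rank `≤ n`, range in `W`.  The restriction
`V → W` of `F` is not injective (`LinearMap.finrank_le_finrank_of_injective`), so there is
`x ∈ V`, `x ≠ 0`, `F x = 0`, and `t ‖x‖ ≤ ‖T x‖ = ‖(T-F) x‖ ≤ ‖T-F‖ ‖x‖`. -/
def S_BA : Prop := ∀ (H : Type) [NormedAddCommGroup H] [InnerProductSpace ℂ H] [CompleteSpace H]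
  (T : H →L[ℂ] H) (n : ℕ) (t : ℝ), Bern T n t → ENNReal.ofReal t ≤ apx n T

/-- JOB WEYL.
Proof. If `F` has rank `≤ m` and `G` rank `≤ n` then `F+G` has rank `≤ m+n` (range in `W ⊔ W'`,
`Submodule.finrank_add_le_finrank_add_finrank`) and `‖S+T-(F+G)‖ₑ ≤ ‖S-F‖ₑ + ‖T-G‖ₑ`; infima
(`ENNReal.iInf_add`, `ENNReal.add_iInf` or `ENNReal.le_of_forall_pos_le_add`; `apx` is finite). -/
def S_WEYL : Prop := ∀ (H : Type) [NormedAddCommGroup H] [InnerProductSpace ℂ H] [CompleteSpace H]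
  (m n : ℕ) (S T : H →L[ℂ] H), apx (m + n) (S + T) ≤ apx m S + apx n T

/-- JOB APB.  Basic properties (`F = 0` is the only operator of rank `≤ 0`; `A * F * B` has rank at most
that of `F`: range in `W.map A`; a map of rank `≤ k` is its own approximation). -/
def S_APB : Prop := ∀ (H : Type) [NormedAddCommGroup H] [InnerProductSpace ℂ H] [CompleteSpace H],
  (∀ (n : ℕ) (A S B : H →L[ℂ] H), ‖A‖ ≤ 1 → ‖B‖ ≤ 1 → apx n (A * S * B) ≤ apx n S) ∧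
  (∀ T : H →L[ℂ] H, apx 0 T = ‖T‖ₑ) ∧
  (∀ T : H →L[ℂ] H, Antitone (fun n => apx n T)) ∧
  (∀ (T : H →L[ℂ] H) (k n : ℕ), RankLE T k → k ≤ n → apx n T = 0)

/-- JOB RK.  Ranks. -/
def S_RK : Prop := ∀ (H : Type) [NormedAddCommGroup H] [InnerProductSpace ℂ H] [CompleteSpace H],
  (∀ (k : ℕ) (A S B : H →L[ℂ] H), RankLE S k → RankLE (A * S * B) k) ∧
  (∀ (k l : ℕ) (S T : H →L[ℂ] H), RankLE S k → RankLE T l → RankLE (S + T) (k + l)) ∧
  (∀ (k l : ℕ) (S : H →L[ℂ] H), RankLE S k → k ≤ l → RankLE S l) ∧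
  (∀ (k : ℕ) (S : H →L[ℂ] H), RankLE S k → RankLE (-S) k) ∧
  (∀ (u v : H), RankLE (rk1 u v) 1)

/-- JOB BP.  Perturbation of Bernstein numbers.
Proof. Let `V` be of dimension `m+n+1` with `t ‖x‖ ≤ ‖C x‖` on `V`, and `F` of rank `≤ n` (range in `W`).
The kernel of `F` in `V` has dimension `≥ m+1` (`LinearMap.finrank_range_add_finrank_ker`); take in it
a subspace `V'` of dimension exactly `m+1` (`Submodule.exists_finrank_eq` or similar; or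
`exists_linearIndependent...`).  On `V'`: `‖D x‖ ≥ ‖C x‖ - ‖E x‖ ≥ (t - ‖E-F‖) ‖x‖`.  So
`Bern D m (t - ‖E-F‖)` and `ofReal t ≤ brn m D + ‖E-F‖ₑ`; infimum over `F`. -/
def S_BP : Prop := ∀ (H : Type) [NormedAddCommGroup H] [InnerProductSpace ℂ H] [CompleteSpace H]
  (C D E : H →L[ℂ] H) (m n : ℕ) (t : ℝ), C = D + E → Bern C (m + n) t →
  ENNReal.ofReal t ≤ brn m D + apx n E

/-! ### The quasi-norm -/

/-- JOB QN (uses WEYL, APB).  `N p` is a quasi-norm.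
Proof. `p = ∞`: `K = 1`, `R k = 1`.  `p < ∞`, `r = p.toReal > 0`: since `apx` is antitone,
`pw r (S+T) = ∑_m (apx (2m))^r + (apx (2m+1))^r ≤ 2 ∑_m apx (m+m) (S+T) ^ r ≤ 2 ∑_m (apx m S + apx m T)^r
≤ 2 * 2^r * (pw r S + pw r T)` (`(x+y)^r ≤ (2 max x y)^r ≤ 2^r (x^r + y^r)`), so
`N (S+T) ≤ (2^(r+1))^(1/r) (pw r S + pw r T)^(1/r) ≤ 2^((r+1)/r) * 2^(1/r) * max (N S) (N T)`.
`op`: the first term of the sum is `‖T‖ₑ ^ r`.  `fin`: only the terms `n < k` are nonzero, each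
`≤ ‖T‖ₑ ^ r`, `R k = k^(1/r)`. -/
def S_QN : Prop := ∀ (H : Type) [NormedAddCommGroup H] [InnerProductSpace ℂ H] [CompleteSpace H]
  (p : ℝ≥0∞), p ≠ 0 → ∃ (K : ℝ≥0∞) (R : ℕ → ℝ≥0∞), QN H (N p) K R

/-- JOB NIN (uses SVU, SVL, BA).  `N p` is the norm on `S_p`, and the approximation numbers are the
singular values.
Proof. `apx n T = ENNReal.ofReal (s n)` by SVU, SVL, BA.  `ENNReal.ofReal_tsum_of_nonneg`,
`ENNReal.ofReal_rpow_of_nonneg`; for `p = ∞`: `‖T‖ₑ = apx 0 T` (`F = 0`). -/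
def S_NIN : Prop := ∀ (H : Type) [NormedAddCommGroup H] [InnerProductSpace ℂ H] [CompleteSpace H]
  (p : ℝ≥0∞), p ≠ 0 → ∀ (T : H →L[ℂ] H),
  (∀ s n, HasSV T s → apx n T = ENNReal.ofReal (s n)) ∧ ∀ r, InS p T r → N p T = ENNReal.ofReal r ∧ 0 ≤ r

/-- JOB PB.  The projections `P b k`.
Proof. `P b k x = ∑_{i<k} ⟨b_i,x⟩ b_i`; orthonormality; `‖P x‖² = ∑_{i<k} |⟨b_i,x⟩|² ≤ ‖x‖²` (Bessel),
`(P b l - P b k) x = ∑_{k≤i<l} ⟨b_i,x⟩ b_i`; `HilbertBasis.hasSum_repr` for the limit. -/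
def S_PB : Prop := ∀ (H : Type) [NormedAddCommGroup H] [InnerProductSpace ℂ H] [CompleteSpace H]
  (b : HilbertBasis ℕ ℂ H),
  (∀ k l, k ≤ l → P b k * P b l = P b k ∧ P b l * P b k = P b k) ∧
  (∀ k, ContinuousLinearMap.adjoint (P b k) = P b k) ∧ (∀ k, ‖P b k‖ ≤ 1) ∧
  (∀ k l, k ≤ l → ‖P b l - P b k‖ ≤ 1) ∧ (∀ k, RankLE (P b k) k) ∧
  (∀ x, Tendsto (fun k => P b k x) atTop (𝓝 x))

/-- JOB APX (uses SVU, QN, PB, RK).  Approximation by blocks.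
Proof. Let `T_R = ∑_{j<R} s_j rk1 e_j f_j`.  `T - T_R` has singular values `s_(j+R)` (`HasSV`, same
orthonormal sequences shifted), so `pw r (T-T_R) ≤ ∑_j ofReal (s_(j+R))^r → 0` as `R → ∞` (tail of a
summable series; `p = ∞`: `‖T-T_R‖ ≤ s_R → 0`), hence `N p (T-T_R) → 0`.  For fixed `R`,
`P_k T_R P_k → T_R` in norm (`P_k rk1 e f P_k = rk1 (P_k e) (P_k f)`, continuity), and
`RankLE (T_R - P_k T_R P_k) (R+R)`, so `N p (T_R - P_k T_R P_k) ≤ R_(2R) ‖·‖ₑ → 0`.  Finally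
`T - P_k T P_k = (T-T_R) + ((T_R - P_k T_R P_k) + P_k (T_R-T) P_k)` and `QN.add`, `QN.ideal`
(`N p (T_R - T) = N p (T-T_R)` by `ideal` with `A = -1`). -/
def S_APX : Prop := ∀ (H : Type) [NormedAddCommGroup H] [InnerProductSpace ℂ H] [CompleteSpace H]
  (b : HilbertBasis ℕ ℂ H) (p : ℝ≥0∞), p ≠ 0 → ∀ (T : H →L[ℂ] H) (r : ℝ), InS p T r →
  Tendsto (fun k => N p (T - P b k * T * P b k)) atTop (𝓝 0)

/-- JOB CUT (uses QN, APX, PB, RK).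
Proof. With `Q = P_l - P_k`, `k ≤ l`:
`C - Q C Q = (C - P_l C P_l) + (P_l (C P_k) + ((P_k C) P_l + (- P_k (C P_k))))`.  The last three terms
have rank `≤ k` and norm `≤ δ`, so `N ≤ R k * δ` each; choose `δ` with
`K * (K * (K * ...)) * R k * δ ≤ η/2`-type bounds and `l` by APX. -/
def S_CUT : Prop := ∀ (H : Type) [NormedAddCommGroup H] [InnerProductSpace ℂ H] [CompleteSpace H]
  (b : HilbertBasis ℕ ℂ H) (p : ℝ≥0∞), p ≠ 0 → ∀ (η : ℝ≥0∞), η ≠ 0 → ∀ k : ℕ, ∃ δ : ℝ, 0 < δ ∧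
  ∀ (C : H →L[ℂ] H) (r : ℝ), InS p C r → ‖C * P b k‖ ≤ δ → ‖P b k * C‖ ≤ δ →
  ∃ l, k ≤ l ∧ N p (C - (P b l - P b k) * C * (P b l - P b k)) ≤ η

/-! ### Block diagonal operators -/

/-- Mutually orthogonal projections. -/
def OrthProj {H : Type} [NormedAddCommGroup H] [InnerProductSpace ℂ H] [CompleteSpace H]
    (Q : ℕ → (H →L[ℂ] H)) : Prop :=
  (∀ i, Q i * Q i = Q i) ∧ (∀ i j, i ≠ j → Q i * Q j = 0) ∧
    ∀ i, ContinuousLinearMap.adjoint (Q i) = Q i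

/-- JOB BN.
Proof. `‖∑ T_j x‖² = ∑ ‖T_j x‖²` (`⟨T_i x, T_j x⟩ = ⟨Q_i .., Q_j ..⟩ = 0`), `‖T_j x‖ ≤ c ‖Q_j x‖`, and
`∑_{j<n} ‖Q_j x‖² ≤ ‖x‖²` (Pythagoras: `y = ∑_{j<n} Q_j x`, `⟨y, x⟩ = ∑ ‖Q_j x‖² = ‖y‖²`, Cauchy-Schwarz). -/
def S_BN : Prop := ∀ (H : Type) [NormedAddCommGroup H] [InnerProductSpace ℂ H] [CompleteSpace H]
  (Q : ℕ → (H →L[ℂ] H)), OrthProj Q → ∀ (T : ℕ → (H →L[ℂ] H)) (c : ℝ) (n : ℕ), 0 ≤ c →
  (∀ j < n, T j = Q j * T j * Q j) → (∀ j < n, ‖T j‖ ≤ c) → ‖∑ j ∈ Finset.range n, T j‖ ≤ c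

/-- JOB BLU (uses BN, APB, RK).
Proof. If the right side is infinite nothing is to show.  Else let `d_j` be the number of `i` with
`t < apx i (D_j)`; as `apx` is antitone, `apx d_j (D_j) ≤ t`.  For every real `t' > t` (if `t = ∞` the left
side is `0`, since `apx i T ≤ ‖T‖ₑ < ∞`) there are `F_j` of rank `≤ d_j` with `‖D_j - F_j‖ ≤ t'`; replace
`F_j` by `Q_j F_j Q_j` (the difference becomes `Q_j (D_j - F_j) Q_j`, `‖Q_j‖ ≤ 1`).  By BN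
`‖∑ D_j - ∑ Q_j F_j Q_j‖ ≤ t'`, so `apx (∑ d_j) (∑ D_j) ≤ t'` for all `t' > t`, hence `≤ t`, and
`{i | t < apx i (∑ D_j)}` is contained in `{i | i < ∑ d_j}`. -/
def S_BLU : Prop := ∀ (H : Type) [NormedAddCommGroup H] [InnerProductSpace ℂ H] [CompleteSpace H]
  (Q : ℕ → (H →L[ℂ] H)), OrthProj Q → ∀ (D : ℕ → (H →L[ℂ] H)) (n : ℕ),
  (∀ j < n, D j = Q j * D j * Q j) → ∀ t : ℝ≥0∞, t ≠ 0 →
  {i | t < apx i (∑ j ∈ Finset.range n, D j)}.encard ≤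
    ∑ j ∈ Finset.range n, {i | t < apx i (D j)}.encard

/-- JOB BLL (uses BA).
Proof. `brn` is antitone in the index (subspaces).  It suffices that for all `d_j ≤ encard {i | t < brn i
(D_j)}` (`d_j` natural numbers) `∑ d_j ≤` the right side.  For `d_j ≥ 1` we have `t < brn (d_j-1) (D_j)`, so
there is a subspace `V_j` of dimension `d_j` and a real `t_j > t` with `‖D_j x‖ ≥ t_j ‖x‖` on `V_j`.  Let
`W_j = Q_j V_j`: for `x ∈ V_j`, `‖D_j x‖ = ‖D_j Q_j x‖` and `‖D_j (Q_j x)‖ ≥ t_j ‖x‖ ≥ t_j ‖Q_j x‖`, and `Q_j`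
is injective on `V_j` (`t_j > 0`).  The `W_j` are mutually orthogonal, so their sum `W` has dimension
`∑ d_j`, and for `y = ∑ y_j` one has `‖∑ D_j y‖² = ∑ ‖D_j y_j‖² ≥ t'² ‖y‖²`, `t' = min t_j > t`.  So
`Bern (∑ D_j) (∑ d_j - 1) t'` (if `∑ d_j ≥ 1`), and by BA and monotonicity
`t < apx i (∑ D_j)` for all `i < ∑ d_j`. -/
def S_BLL : Prop := ∀ (H : Type) [NormedAddCommGroup H] [InnerProductSpace ℂ H] [CompleteSpace H]
  (Q : ℕ → (H →L[ℂ] H)), OrthProj Q → ∀ (D : ℕ → (H →L[ℂ] H)) (n : ℕ),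
  (∀ j < n, D j = Q j * D j * Q j) → ∀ t : ℝ≥0∞, t ≠ 0 →
  ∑ j ∈ Finset.range n, {i | t < brn i (D j)}.encard ≤
    {i | t < apx i (∑ j ∈ Finset.range n, D j)}.encard

/-- JOB LAY.  Layer cake comparison.
Proof. `∑_i z_i^p = ∫ z^p d(count) = p ∫_0^∞ t^(p-1) count {i | t < z_i} dt`
(`MeasureTheory.lintegral_rpow_eq_lintegral_meas_lt_mul`, for `(z_i).toReal`), and compare the
integrands for `t > 0` (`Measure.count_apply` and `Set.encard`). -/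
def S_LAY : Prop := ∀ (p : ℝ), 0 < p → ∀ (n : ℕ) (x : ℕ → ℝ≥0∞) (y : ℕ → ℕ → ℝ≥0∞),
  (∀ i, x i ≠ ∞) → (∀ j i, y j i ≠ ∞) →
  ((∀ t : ℝ≥0∞, t ≠ 0 → {i | t < x i}.encard ≤ ∑ j ∈ Finset.range n, {i | t < y j i}.encard) →
    ∑' i, x i ^ p ≤ ∑ j ∈ Finset.range n, ∑' i, y j i ^ p) ∧
  ((∀ t : ℝ≥0∞, t ≠ 0 → ∑ j ∈ Finset.range n, {i | t < y j i}.encard ≤ {i | t < x i}.encard) →
    ∑ j ∈ Finset.range n, ∑' i, y j i ^ p ≤ ∑' i, x i ^ p)

/-- JOB LOWC (uses SVU, SVL, BP).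
Proof. `pw p C ≤ ∑_n ofReal (s n) ^ p ≤ 2 ∑_m ofReal (s (m+m)) ^ p` (`s` antitone), and
`ofReal (s (m+m)) ≤ brn m D + apx m E` by SVL, BP; `(x+y)^p ≤ 2^p (x^p+y^p)`. -/
def S_LOWC : Prop := ∀ (H : Type) [NormedAddCommGroup H] [InnerProductSpace ℂ H] [CompleteSpace H]
  (p : ℝ), 0 < p → ∀ (C D E : H →L[ℂ] H) (s : ℕ → ℝ), HasSV C s → C = D + E →
  pw p C ≤ ENNReal.ofReal (2 ^ (p + 1)) * (∑' m, brn m D ^ p + pw p E)

/-- JOB UP (uses BN, BLU, LAY, APB).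
Proof. `p = ∞`: BN with `c = 1`.  `p < ∞`: BLU, first half of LAY with `x i = apx i (∑ D_j)`,
`y j i = apx i (D_j)`, `∑' i, y j i ^ r = pw r (D_j) = (N p (D_j))^r ≤ 1`; `(p⁻¹).toReal = 1 / p.toReal`. -/
def S_UP : Prop := ∀ (H : Type) [NormedAddCommGroup H] [InnerProductSpace ℂ H] [CompleteSpace H]
  (p : ℝ≥0∞), p ≠ 0 → ∀ (Q : ℕ → (H →L[ℂ] H)), OrthProj Q → ∀ (D : ℕ → (H →L[ℂ] H)) (n : ℕ),
  1 ≤ n → (∀ j < n, D j = Q j * D j * Q j) → (∀ j < n, N p (D j) ≤ 1) →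
  N p (∑ j ∈ Finset.range n, D j) ≤ (n : ℝ≥0∞) ^ (p⁻¹).toReal

/-- JOB LOW (uses BLL, LAY, LOWC, BA, NIN, APB).
Proof. `r = p.toReal`, `pw r (C_j) = (N p (C_j))^r = 1`.  By LOWC `1 ≤ 2^(r+1) (∑' m, brn m (D_j)^r + η^r)`,
so for `η^r = 2^(-r-2)` we get `∑' m, brn m (D_j)^r ≥ 2^(-r-2)`.  BLL and the second half of LAY
(`y j i = brn i (D_j) ≤ apx i (D_j) < ∞` by BA; for `j ≥ n` put `y j i = 0`) give
`pw r (∑ D_j) ≥ n 2^(-r-2)`; `c = (2^(-r-2))^(1/r)`. -/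
def S_LOW : Prop := ∀ (H : Type) [NormedAddCommGroup H] [InnerProductSpace ℂ H] [CompleteSpace H]
  (p : ℝ≥0∞), p ≠ 0 → p ≠ ∞ → ∃ c η : ℝ≥0∞, c ≠ 0 ∧ η ≠ 0 ∧
  ∀ (Q : ℕ → (H →L[ℂ] H)), OrthProj Q → ∀ (C D E : ℕ → (H →L[ℂ] H)) (n : ℕ),
  (∀ j < n, D j = Q j * D j * Q j) → (∀ j < n, C j = D j + E j) → (∀ j < n, InS p (C j) 1) →
  (∀ j < n, N p (E j) ≤ η) →
  c * (n : ℝ≥0∞) ^ (p⁻¹).toReal ≤ N p (∑ j ∈ Finset.range n, D j)

/-! ### Signs and blocks -/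

/-- The sum of the squares of the norms on the first `k` vectors, for `X` and its adjoint. -/
noncomputable def hs {H : Type} [NormedAddCommGroup H] [InnerProductSpace ℂ H] [CompleteSpace H]
    (b : ℕ → H) (k : ℕ) (X : H →L[ℂ] H) : ℝ :=
  ∑ i ∈ Finset.range k, (‖X (b i)‖ ^ 2 + ‖ContinuousLinearMap.adjoint X (b i)‖ ^ 2)

/-- JOB SGN.  Averaging over signs.
Proof. Parallelogram identity `hs (S+X) + hs (S-X) = 2 hs S + 2 hs X`; so for one choice of the sign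
`hs (S ± X) ≤ hs S + hs X`, and for the other `≥`; induction on `M`. -/
def S_SGN : Prop := ∀ (H : Type) [NormedAddCommGroup H] [InnerProductSpace ℂ H] [CompleteSpace H]
  (b : ℕ → H) (k M : ℕ) (X : ℕ → (H →L[ℂ] H)),
  (∃ ε : ℕ → ℝ, (∀ i, ε i = 1 ∨ ε i = -1) ∧
    hs b k (∑ j ∈ Finset.range M, (ε j : ℂ) • X j) ≤ ∑ j ∈ Finset.range M, hs b k (X j)) ∧
  (∃ ε : ℕ → ℝ, (∀ i, ε i = 1 ∨ ε i = -1) ∧
    ∑ j ∈ Finset.range M, hs b k (X j) ≤ hs b k (∑ j ∈ Finset.range M, (ε j : ℂ) • X j))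

/-- JOB PE.
Proof. `X P_k x = ∑_{i<k} ⟨b_i,x⟩ X b_i`, Cauchy-Schwarz and Bessel; `P_k X = (X* P_k)*` (as `P_k` is
self-adjoint) and `‖A*‖ = ‖A‖`; the last one is trivial. -/
def S_PE : Prop := ∀ (H : Type) [NormedAddCommGroup H] [InnerProductSpace ℂ H] [CompleteSpace H]
  (b : HilbertBasis ℕ ℂ H) (k : ℕ) (X : H →L[ℂ] H),
  ‖X * P b k‖ ^ 2 ≤ hs b k X ∧ ‖P b k * X‖ ^ 2 ≤ hs b k X ∧ hs b k X ≤ 2 * k * ‖X‖ ^ 2

/-- JOB DIAG.  Diagonal operators.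
Proof. Extend `σ` on `{i < L}` to an injective `τ : ℕ → ℕ` (the complement of `σ '' {i < L}` is
infinite, `Nat.nth` or `Infinite.natEmbedding` of the complement for `i ≥ L`); `e_i = b_(τ i)`,
`f_i = ε_i b_(τ i)` for `i < L`, `f_i = b_(τ i)` for `i ≥ L`; finite sums (`hasSum_sum_of_ne_finset_zero`).
The sequence is antitone, nonnegative, finally `0`. -/
def S_DIAG : Prop := ∀ (H : Type) [NormedAddCommGroup H] [InnerProductSpace ℂ H] [CompleteSpace H]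
  (b : HilbertBasis ℕ ℂ H) (L : ℕ) (σ : ℕ → ℕ) (ε c : ℕ → ℝ),
  Set.InjOn σ (Set.Iio L) → (∀ i, ε i = 1 ∨ ε i = -1) → (∀ i j, i ≤ j → j < L → c j ≤ c i) →
  (∀ i < L, 0 ≤ c i) →
  HasSV (∑ i ∈ Finset.range L, ((ε i * c i : ℝ) : ℂ) • rk1 (b (σ i)) (b (σ i)))
    (fun i => if i < L then c i else 0)

/-- The norm of `(c_0, …, c_{L-1})`, decreasing, in `ℓ_q`. -/
noncomputable def nq (q : ℝ≥0∞) (c : ℕ → ℝ) (L : ℕ) : ℝ :=
  if q = ∞ then c 0 else (∑ i ∈ Finset.range L, c i ^ q.toReal) ^ (1 / q.toReal)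

/-- The operators `A n` behave in `S_p` like the basis vectors in `ℓ_q`. -/
def Test {H : Type} [NormedAddCommGroup H] [InnerProductSpace ℂ H] (q p : ℝ≥0∞)
    (A : ℕ → (H →L[ℂ] H)) : Prop :=
  ∀ (L : ℕ) (σ : ℕ → ℕ) (ε c : ℕ → ℝ), 1 ≤ L →
    Set.InjOn σ (Set.Iio L) → (∀ i, ε i = 1 ∨ ε i = -1) → (∀ i j, i ≤ j → j < L → c j ≤ c i) →
    (∀ i < L, 0 ≤ c i) →
    InS p (∑ i ∈ Finset.range L, ((ε i * c i : ℝ) : ℂ) • A (σ i)) (nq q c L)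

/-- JOB TEST (uses DIAG).
Proof. `A n = J (rk1 (b n) (b n))`.  By DIAG all partial sums (and single terms) of the diagonal
operators are in `S_q`, with norm `nq q c L` (`tsum` of a finitely supported function), and `J` of the sum
is the sum of the `J`'s by induction on `L ≥ 1`. -/
def S_TEST : Prop := ∀ (H : Type) [NormedAddCommGroup H] [InnerProductSpace ℂ H] [CompleteSpace H]
  (_ : HilbertBasis ℕ ℂ H) (q p : ℝ≥0∞), q ≠ 0 → Embeds H q p →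
  ∃ A : ℕ → (H →L[ℂ] H), Test q p A

/-- JOB ST1 (uses SGN, PE, NIN, QN).  Case `q < 2`.
Proof. `‖A n‖ ≤ N p (A n) = 1` (Test with `L = 1`, `c = 1`).  By SGN there are signs with
`hs b k (∑_{i<M} ε_i A(m+i)) ≤ ∑ hs b k (A(m+i)) ≤ 2 k M`; with the factor `M^(-1/q)` the norms in PE are
at most `(2k)^(1/2) M^(1/2-1/q) → 0` as `M → ∞`. -/
def S_ST1 : Prop := ∀ (H : Type) [NormedAddCommGroup H] [InnerProductSpace ℂ H] [CompleteSpace H]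
  (b : HilbertBasis ℕ ℂ H) (q p : ℝ≥0∞), q ≠ 0 → p ≠ 0 → q < 2 → ∀ (A : ℕ → (H →L[ℂ] H)),
  Test q p A → ∀ (k : ℕ) (δ : ℝ), 0 < δ → ∀ m M₀ : ℕ, ∃ M, M₀ ≤ M ∧ 1 ≤ M ∧ ∃ ε : ℕ → ℝ,
  (∀ i, ε i = 1 ∨ ε i = -1) ∧
  ‖(∑ i ∈ Finset.range M, ((ε i * (M : ℝ) ^ (-(1 / q.toReal)) : ℝ) : ℂ) • A (m + i)) * P b k‖ ≤ δ ∧
  ‖P b k * (∑ i ∈ Finset.range M, ((ε i * (M : ℝ) ^ (-(1 / q.toReal)) : ℝ) : ℂ) • A (m + i))‖ ≤ δ

/-- JOB ST2 (uses SGN, PE, NIN, QN).  Case `q > 2`.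
Proof. If `hs b k (A n) > δ²` for all `m ≤ n < m+M`, then by SGN there are signs with
`M δ² ≤ hs b k X ≤ 2 k ‖X‖² ≤ 2 k (N p X)² = 2 k M^(2/q)` for `X = ∑_{i<M} ε_i A(m+i)` (`2/q` read as `0` for
`q = ∞`), which is false for large `M`, since `2/q < 1`.  So `hs b k (A n) ≤ δ²` for some `n ≥ m`; PE. -/
def S_ST2 : Prop := ∀ (H : Type) [NormedAddCommGroup H] [InnerProductSpace ℂ H] [CompleteSpace H]
  (b : HilbertBasis ℕ ℂ H) (q p : ℝ≥0∞), p ≠ 0 → 2 < q → ∀ (A : ℕ → (H →L[ℂ] H)),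
  Test q p A → ∀ (k : ℕ) (δ : ℝ), 0 < δ → ∀ m : ℕ, ∃ n, m ≤ n ∧ ‖A n * P b k‖ ≤ δ ∧ ‖P b k * A n‖ ≤ δ

/-- The gliding hump. -/
def Glide {H : Type} [NormedAddCommGroup H] [InnerProductSpace ℂ H]
    (b : HilbertBasis ℕ ℂ H) (q p : ℝ≥0∞) : Prop :=
  ∀ n : ℕ, 1 ≤ n → ∀ η : ℝ≥0∞, η ≠ 0 → ∃ (C : ℕ → (H →L[ℂ] H)) (k : ℕ → ℕ), Monotone k ∧
    (∀ j < n, InS p (C j) 1) ∧
    InS p (∑ j ∈ Finset.range n, C j) ((n : ℝ) ^ (q⁻¹).toReal) ∧
    ∀ j < n, N p (C j - (P b (k (j + 1)) - P b (k j)) * C j * (P b (k (j + 1)) - P b (k j))) ≤ η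

/-- JOB GL1 (uses ST1, CUT).  Case `q < 2`.
Proof. Let `Init X m v c` say: `X = ∑_{i<m} (ε_i c_i) • A i` with signs `ε`, `c_i` decreasing on
`{i < m}`, `c ≤ c_i` for `i < m`, `0 ≤ c`, `∑_{i<m} c_i^q = v`.  If `Init X m v c` and `0 < c' ≤ c`, then
`Init (X + ∑_{i<M} (ε'_i c') • A (m+i)) (m+M) (v + M c'^q) c'` (`Finset.sum_range_add`/
`Finset.range_add`, piecewise sequences).  Now recursion: in the state `(k, m, M₀)` take `δ` from CUT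
(for `k`, `η`), then `M ≥ M₀`, `ε` from ST1, `C = ∑_{i<M} (ε_i M^(-1/q)) • A (m+i)`, which has `InS p C 1`
by Test, and `l` from CUT; new state `(l, m+M, M)`.  As `M ≥ M₀`, the coefficient `M^(-1/q)` is at most
the previous one.  After `n` steps `v = n` (each step adds `M M^(-1) = 1`), and Test gives
`InS p (∑ C_j) (n^(1/q))`.  (Induct on `n` with the statement: there are `C`, `k` monotone, `m`, `M` with
`Init (∑_{j<n} C_j) m n (M^(-1/q))`, …; or use `Nat.rec` on a state type.) -/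
def S_GL1 : Prop := ∀ (H : Type) [NormedAddCommGroup H] [InnerProductSpace ℂ H] [CompleteSpace H]
  (b : HilbertBasis ℕ ℂ H) (q p : ℝ≥0∞), q ≠ 0 → p ≠ 0 → q < 2 → ∀ (A : ℕ → (H →L[ℂ] H)),
  Test q p A → Glide b q p

/-- JOB GL2 (uses ST2, CUT).  Case `q > 2`.
Proof. Recursion: in the state `(k, m)` take `δ` from CUT, `n ≥ m` from ST2, `C = A n` (`InS p C 1` by Test,
`L = 1`), `l` from CUT, new state `(l, n+1)`.  The sum of `A (n_j)`, `n_j` strictly increasing, has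
norm `n^(1/q)` by Test with `c = 1`, `ε = 1` (`nq q 1 n = n^(1/q)`, `= 1` for `q = ∞`). -/
def S_GL2 : Prop := ∀ (H : Type) [NormedAddCommGroup H] [InnerProductSpace ℂ H] [CompleteSpace H]
  (b : HilbertBasis ℕ ℂ H) (q p : ℝ≥0∞), p ≠ 0 → 2 < q → ∀ (A : ℕ → (H →L[ℂ] H)),
  Test q p A → Glide b q p

/-- JOB FINU (uses QN, UP, PB, NIN).  Case `q < p`.
Proof. `Q_j = P(k_{j+1}) - P(k_j)` is an `OrthProj` (PB, `k` monotone).  `D_j = Q_j C_j Q_j`, `N p D_j ≤ 1`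
(ideal), `E_j = C_j - D_j`, `N p (∑_{j<n} E_j) ≤ K^n n η ≤ 1` for `η = 1/(n K^n)`.  So
`n^(1/q) = N p (∑ C_j) ≤ K (N p (∑ D_j) + 1) ≤ 2 K n^(1/p)` for all `n ≥ 1`, false for large `n`.
(For `j ≥ n` one may change `C_j` to `0`.) -/
def S_FINU : Prop := ∀ (H : Type) [NormedAddCommGroup H] [InnerProductSpace ℂ H] [CompleteSpace H]
  (b : HilbertBasis ℕ ℂ H) (q p : ℝ≥0∞), q ≠ 0 → p ≠ 0 → q < p → ¬ Glide b q p

/-- JOB FINL (uses QN, LOW, PB, NIN).  Case `p < q`.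
Proof. As before; `c n^(1/p) ≤ N p (∑ D_j) ≤ K (N p (∑ C_j) + N p (-∑ E_j)) ≤ 2 K n^(1/q)`
(`N p (-T) = N p T` by `ideal`, `1/q` read as `0` for `q = ∞`). -/
def S_FINL : Prop := ∀ (H : Type) [NormedAddCommGroup H] [InnerProductSpace ℂ H] [CompleteSpace H]
  (b : HilbertBasis ℕ ℂ H) (q p : ℝ≥0∞), q ≠ 0 → p ≠ 0 → p < q → ¬ Glide b q p

/-! ### The case `q = 2` and bases -/

/-- JOB HS.  Hilbert-Schmidt norm in a basis.
Proof. `‖T b_i‖² = ∑_j s_j² |⟨e_j,b_i⟩|²` and `∑_i |⟨e_j,b_i⟩|² = ‖e_j‖² = 1` (Parseval), exchange the sums;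
`‖T b_i‖² = ∑_l |⟨b_l, T b_i⟩|²`.  (`HasSum` over `ℕ × ℕ`.) -/
def S_HS : Prop := ∀ (H : Type) [NormedAddCommGroup H] [InnerProductSpace ℂ H] [CompleteSpace H]
  (b : HilbertBasis ℕ ℂ H) (T : H →L[ℂ] H) (s : ℕ → ℝ), HasSV T s → Summable (fun j => s j ^ 2) →
  HasSum (fun z : ℕ × ℕ => ‖inner ℂ (b z.1) (T (b z.2))‖ ^ 2) (∑' j, s j ^ 2)

/-- JOB POS (uses HS).
Proof. `v T := b.repr.symm` of the element `l ↦ ⟨b_(l.unpair.1), T b_(l.unpair.2)⟩` of `ℓ²(ℕ)` if this family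
is square summable, `0` otherwise.  `J T = rk1 (b 0) (v T)`; `HasSV (rk1 u v) (‖v‖, 0, 0, …)` for unit `u`
(`e_0 = u = b 0`, `e_j = b j`; `f_0 = v/‖v‖`, completed to an orthonormal sequence: any unit vector `f_0` of
an infinite dimensional space is the first member of an orthonormal sequence; if `v = 0` take `f = b`).
`v` is additive and homogeneous on `S_2`, and `‖v T‖² = ∑ s_j²` by HS. -/
def S_POS : Prop := ∀ (H : Type) [NormedAddCommGroup H] [InnerProductSpace ℂ H] [CompleteSpace H]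
  (_ : HilbertBasis ℕ ℂ H) (p : ℝ≥0∞), p ≠ 0 → Embeds H 2 p

/-- JOB HB.  A separable infinite dimensional Hilbert space has a Hilbert basis indexed by `ℕ`.
Proof. `exists_hilbertBasis`; the index set is countable (orthonormal vectors have distance `√2`,
separability) and infinite; reindex (`HilbertBasis.reindex` or `HilbertBasis.mk`). -/
def S_HB : Prop := ∀ (H : Type) [NormedAddCommGroup H] [InnerProductSpace ℂ H] [CompleteSpace H]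
  [TopologicalSpace.SeparableSpace H], ¬ FiniteDimensional ℂ H → Nonempty (HilbertBasis ℕ ℂ H)

/-- The result. -/
def S_MAIN : Prop := ∀ (H : Type) [NormedAddCommGroup H] [InnerProductSpace ℂ H] [CompleteSpace H]
  [TopologicalSpace.SeparableSpace H], ¬ FiniteDimensional ℂ H →
  ∀ p q : ℝ≥0∞, p ≠ 0 → q ≠ 0 → p ≠ q → (Embeds H q p ↔ q = 2)

end Pool.Agent.Q66.SH
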