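import Mathlib

/-!
# Isometric embeddings of Schatten classes: definitions (project SH of helper66, row MP_dcad15_an)
-/

set_option autoImplicit false

open Filter Topology
open scoped ENNReal

namespace Pool.Agent.Q66.SH

section
variable {H : Type} [NormedAddCommGroup H] [InnerProductSpace ℂ H]

/-- `s` is the sequence of singular values of `T` (Schmidt decomposition): `s` is decreasing,
nonnegative, tends to `0`, and `T x = ∑ s_j ⟨e_j, x⟩ f_j` with orthonormal sequences `e`, `f`. -/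
def HasSV (T : H →L[ℂ] H) (s : ℕ → ℝ) : Prop :=
  Antitone s ∧ (∀ j, 0 ≤ s j) ∧ Tendsto s atTop (𝓝 0) ∧
    ∃ e f : ℕ → H, Orthonormal ℂ e ∧ Orthonormal ℂ f ∧
      ∀ x, HasSum (fun j => ((s j : ℂ) * inner ℂ (e j) x) • f j) (T x)

/-- `T` belongs to the Schatten class `S_p` and its (quasi-)norm is `r`. -/
def InS (p : ℝ≥0∞) (T : H →L[ℂ] H) (r : ℝ) : Prop :=
  ∃ s : ℕ → ℝ, HasSV T s ∧
    ((p = ∞ ∧ r = s 0) ∨
      (p ≠ ∞ ∧ Summable (fun j => s j ^ p.toReal) ∧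
        r = (∑' j, s j ^ p.toReal) ^ (1 / p.toReal)))

variable (H) in
/-- `S_q(H)` embeds isometrically into `S_p(H)`: there is a map `J` which is linear on `S_q(H)`, maps
`S_q(H)` into `S_p(H)` and preserves the (quasi-)norms. -/
def Embeds (q p : ℝ≥0∞) : Prop :=
  ∃ J : (H →L[ℂ] H) → (H →L[ℂ] H),
    (∀ S T r t, InS q S r → InS q T t → J (S + T) = J S + J T) ∧
    (∀ (c : ℂ) T t, InS q T t → J (c • T) = c • J T) ∧
    ∀ T t, InS q T t → InS p (J T) t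

/-- The rank of `F` is at most `n`. -/
def RankLE (F : H →L[ℂ] H) (n : ℕ) : Prop :=
  ∃ W : Submodule ℂ H, FiniteDimensional ℂ W ∧ Module.finrank ℂ W ≤ n ∧ ∀ x, F x ∈ W

/-- The approximation numbers `a_n(T)`, `n = 0, 1, …` (`a_0(T) = ‖T‖`). -/
noncomputable def apx (n : ℕ) (T : H →L[ℂ] H) : ℝ≥0∞ :=
  ⨅ (F : H →L[ℂ] H) (_ : RankLE F n), ‖T - F‖ₑ

/-- The sum of the `p`-th powers of the approximation numbers. -/
noncomputable def pw (p : ℝ) (T : H →L[ℂ] H) : ℝ≥0∞ := ∑' n, apx n T ^ p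

/-- The quasi-norm. -/
noncomputable def N (p : ℝ≥0∞) (T : H →L[ℂ] H) : ℝ≥0∞ :=
  if p = ∞ then ‖T‖ₑ else pw p.toReal T ^ (1 / p.toReal)

/-- `‖D x‖ ≥ t ‖x‖` on some subspace of dimension `n + 1`. -/
def Bern (D : H →L[ℂ] H) (n : ℕ) (t : ℝ) : Prop :=
  ∃ V : Submodule ℂ H, FiniteDimensional ℂ V ∧ Module.finrank ℂ V = n + 1 ∧
    ∀ x ∈ V, t * ‖x‖ ≤ ‖D x‖

/-- The Bernstein numbers `b_n(D)`, `n = 0, 1, …`. -/
noncomputable def brn (n : ℕ) (D : H →L[ℂ] H) : ℝ≥0∞ :=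
  ⨆ (t : ℝ) (_ : Bern D n t), ENNReal.ofReal t

/-- The operator `x ↦ ⟨u, x⟩ v`. -/
noncomputable def rk1 (u v : H) : H →L[ℂ] H := (innerSL ℂ u).smulRight v

/-- The projection onto the span of the first `k` basis vectors. -/
noncomputable def P (b : HilbertBasis ℕ ℂ H) (k : ℕ) : H →L[ℂ] H :=
  ∑ i ∈ Finset.range k, rk1 (b i) (b i)

/-- The properties of the quasi-norm used in the gliding hump argument. -/
structure QN (H : Type) [NormedAddCommGroup H] [InnerProductSpace ℂ H]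
    (M : (H →L[ℂ] H) → ℝ≥0∞) (K : ℝ≥0∞) (R : ℕ → ℝ≥0∞) : Prop where
  one_le : 1 ≤ K
  K_ne : K ≠ ∞
  R_ne : ∀ k, R k ≠ ∞
  add : ∀ S T, M (S + T) ≤ K * (M S + M T)
  ideal : ∀ A S B : H →L[ℂ] H, ‖A‖ ≤ 1 → ‖B‖ ≤ 1 → M (A * S * B) ≤ M S
  op : ∀ T, ‖T‖ₑ ≤ M T
  fin : ∀ k T, RankLE T k → M T ≤ R k * ‖T‖ₑ

end

end Pool.Agent.Q66.SH
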