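import Pool.Agent.Q66.SH.Stm

/-!
# Two further statements of project SH: compact operators and singular values
-/

set_option autoImplicit false

open Filter Topology
open scoped ENNReal

namespace Pool.Agent.Q66.SH

/-- JOB CPT.  An operator with a Schmidt decomposition is compact.
Proof. `T` is the limit in norm of the finite rank operators `∑_{j<n} (s j : ℂ) • rk1 (e j) (f j)`
(error `≤ s n`, as in job SVU; or: by SVU `apx n T → 0`, so there are `F_n` of rank `≤ n` with
`‖T - F_n‖ → 0`), finite rank operators are compact, `isCompactOperator_of_tendsto`. -/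
def S_CPT : Prop := ∀ (H : Type) [NormedAddCommGroup H] [InnerProductSpace ℂ H] [CompleteSpace H]
  (T : H →L[ℂ] H) (s : ℕ → ℝ), HasSV T s → IsCompactOperator T

/-- JOB GREEDY.  A compact operator attains its norm on every nonzero closed subspace, at a singular
vector.
Proof. Let `V` be closed, `V ≠ ⊥`, such that `T* T` maps `V` into `V`; let `A` be the restriction of `T* T`
to `V`, compact and symmetric, positive.  If `A = 0`, take any unit `x ∈ V`, `σ = 0` (`‖T x‖² = ⟨x, T* T x⟩`).
Otherwise `‖A‖` or `-‖A‖` is an eigenvalue of `A` (spectral theory of compact self-adjoint operators in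
Mathlib: `ContinuousLinearMap.spectralRadius_eq_nnnorm`, `IsCompactOperator.hasEigenvalue_iff_mem_spectrum`,
used in the proof of `ContinuousLinearMap.eq_zero_of_forall_hasEigenvalue_eq_zero`), `≥ 0` by positivity,
so `A x = ‖A‖ x` for a unit `x`; `σ = √‖A‖`, and `‖T y‖² = ⟨y, A y⟩ ≤ ‖A‖ ‖y‖²` on `V`. -/
def S_GREEDY : Prop := ∀ (H : Type) [NormedAddCommGroup H] [InnerProductSpace ℂ H] [CompleteSpace H]
  (T : H →L[ℂ] H), IsCompactOperator T → ∀ V : Submodule ℂ H, IsClosed (V : Set H) → V ≠ ⊥ →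
  (∀ x ∈ V, ContinuousLinearMap.adjoint T (T x) ∈ V) →
  ∃ (x : H) (σ : ℝ), x ∈ V ∧ ‖x‖ = 1 ∧ 0 ≤ σ ∧
    ContinuousLinearMap.adjoint T (T x) = ((σ ^ 2 : ℝ) : ℂ) • x ∧ ∀ y ∈ V, ‖T y‖ ≤ σ * ‖y‖

/-- JOB SVD (uses GREEDY).  A compact operator on an infinite dimensional Hilbert space has a Schmidt
decomposition.
Proof. By recursion (strong recursion on finite lists or sequences) choose `e_n`, `σ_n` by GREEDY for
`V_n = {e_0, …, e_(n-1)}ᗮ`, which is closed, nonzero (infinite dimension) and invariant under `T* T`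
(the `e_i` are eigenvectors of the self-adjoint operator `T* T`).  Then `e` is orthonormal, `σ` is antitone
(`V_(n+1) ≤ V_n`, `‖T e_n‖ = σ_n`), `σ → 0`: the `T e_n` are orthogonal with norms `σ_n`; if `σ_n ≥ c > 0` for
all `n` then `‖T e_n - T e_m‖ ≥ c`, against compactness.  Put `f_n = σ_n⁻¹ T e_n` if `σ_n > 0`; these are
orthonormal.  If `σ_n = 0` for some `n` (then for all later ones) complete the finite orthonormal family
`f_0, …, f_(n₀-1)` to an infinite orthonormal sequence (infinite dimension).  Finally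
`‖T x - ∑_{i<n} σ_i ⟨e_i,x⟩ f_i‖ = ‖T (x - ∑_{i<n} ⟨e_i,x⟩ e_i)‖ ≤ σ_n ‖x‖ → 0`; `HasSum` because the terms
are orthogonal with square summable norms (or: unconditional by the same estimate for finite sets
containing `range n`). -/
def S_SVD : Prop := ∀ (H : Type) [NormedAddCommGroup H] [InnerProductSpace ℂ H] [CompleteSpace H],
  ¬ FiniteDimensional ℂ H → ∀ T : H →L[ℂ] H, IsCompactOperator T → ∃ s, HasSV T s

/-- JOB LIN (uses SVD, CPT, WEYL, NIN or SVU, SVL, BA).  `S_p` is a linear space.
Proof. Sums and multiples of compact operators are compact, so they have singular values by SVD, CPT;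
by WEYL `s_(2n)(S+T), s_(2n+1)(S+T) ≤ s_n(S) + s_n(T)`, and `(x+y)^p ≤ 2^p (x^p+y^p)`, so the sum is
summable (`apx n T = ENNReal.ofReal (s n)`, see NIN).  For `c • T` the singular values are `|c| s_n`
(`HasSV (c • T)` with `f` replaced by `(c/|c|) f`; for `c = 0` zero). -/
def S_LIN : Prop := ∀ (H : Type) [NormedAddCommGroup H] [InnerProductSpace ℂ H] [CompleteSpace H],
  ¬ FiniteDimensional ℂ H → ∀ p : ℝ≥0∞, p ≠ 0 →
  (∀ (S T : H →L[ℂ] H) (r t : ℝ), InS p S r → InS p T t → ∃ u, InS p (S + T) u) ∧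
  (∀ (c : ℂ) (T : H →L[ℂ] H) (t : ℝ), InS p T t → InS p (c • T) (‖c‖ * t))

end Pool.Agent.Q66.SH
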