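import Pool.Agent.Q66.SH.Main
import Pool.Agent.Q66.SH.Stm2
import Pool.Agent.Q109.SH.SVU
import Pool.Agent.Q103.SH.SVL
import Pool.Agent.Q278.SH.BW
import Pool.Agent.Q147.SH.APB
import Pool.Agent.Q147.SH.RK
import Pool.Agent.Q109.SH.BP
import Pool.Agent.Q39.SH.QN
import Pool.Agent.Q130.SH.NIN
import Pool.Agent.Q277.SH.PB
import Pool.Agent.Q83.SH.APX
import Pool.Agent.Q254.SH.CUT
import Pool.Agent.Q222.SH66.BN
import Pool.Agent.Q143.SH.BLU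
import Pool.Agent.Q194.SH.BLL
import Pool.Agent.Q182.SH.LAY
import Pool.Agent.Q182.SH.LOWC
import Pool.Agent.Q103.SH.UP
import Pool.Agent.Q39.SH.LOW
import Pool.Agent.Q278.SH.SP
import Pool.Agent.Q256.SH.DIAG
import Pool.Agent.Q39.SH.ST
import Pool.Agent.Q86.SH.GL1
import Pool.Agent.Q87.SH.FINU
import Pool.Agent.Q109.SH.FINL
import Pool.Agent.Q143.SH.HS
import Pool.Agent.Q121.SH.POS
import Pool.Agent.Q121.SH.HB
import Pool.Agent.Q130.SH.CPT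
import Pool.Agent.Q86.SH.SVD
import Pool.Agent.Q21.SH.LIN

/-!
# Project SH (row MP_dcad15_an): all parts together
-/

set_option autoImplicit false

open Filter Topology
open scoped ENNReal

namespace Pool.Agent.Q66.SH

open Pool.Agent

theorem nin : S_NIN := Q130.SH.NIN.t_NIN Q109.SH.t_SVU Q103.SH.t_SVL Q278.SH.t_BA

theorem qn : S_QN := Q39.SH.t_QN Q278.SH.t_WEYL Q147.SH.t_APB

theorem cut : S_CUT :=
  Q254.SH.t_CUT qn (Q83.SH.t_APX Q109.SH.t_SVU qn Q277.SH.t_PB Q147.SH.t_RK) Q277.SH.t_PB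
    Q147.SH.t_RK

theorem finu : S_FINU :=
  Q87.SH.t_FINU qn
    (Q103.SH.t_UP Q222.SH66.t_BN (Q143.SH.t_BLU Q222.SH66.t_BN Q147.SH.t_APB Q147.SH.t_RK)
      Q182.SH.t_LAY Q147.SH.t_APB) Q277.SH.t_PB nin

theorem finl : S_FINL :=
  Q109.SH.t_FINL qn
    (Q39.SH.t_LOW (Q194.SH.t_BLL Q278.SH.t_BA) Q182.SH.t_LAY
      (Q182.SH.t_LOWC Q109.SH.t_SVU Q103.SH.t_SVL Q109.SH.t_BP) Q278.SH.t_BA nin Q147.SH.t_APB)
    Q277.SH.t_PB nin

theorem gl1 : S_GL1 := Q86.SH.t_GL1 (Q39.SH.t_ST1 Q278.SH.t_SGN Q278.SH.t_PE nin qn) cut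

end Pool.Agent.Q66.SH
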