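import Pool.Agent.Q66.SH.Fin
import Pool.Agent.Q204.SH.Gl2
import Pool.Agent.Q113.SH.GREEDY

/-!
# Project SH (row MP_dcad15_an): the final theorem
-/

set_option autoImplicit false

open Filter Topology
open scoped ENNReal

namespace Pool.Agent.Q66.SH

open Pool.Agent

theorem gl2 : S_GL2 := Q204.SH.t_GL2 (Q39.SH.t_ST2 Q278.SH.t_SGN Q278.SH.t_PE nin qn) cut

theorem svd : S_SVD := Q86.SH.t_SVD Q113.SH.t_GREEDY

theorem cpt : S_CPT := Q130.SH.CPT.t_CPT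

theorem lin : S_LIN := Q21.SH.t_LIN svd cpt Q278.SH.t_WEYL nin

theorem mainT : S_MAIN :=
  t_MAIN Q121.SH.t_HB (Q256.SH.t_TEST Q256.SH.t_DIAG) gl1 gl2 finu finl
    (Q121.SH.t_POS Q143.SH.t_HS)

theorem final (H : Type) [NormedAddCommGroup H] [InnerProductSpace ℂ H] [CompleteSpace H]
    [TopologicalSpace.SeparableSpace H] (hH : ¬ FiniteDimensional ℂ H) :
    (∀ T : H →L[ℂ] H, IsCompactOperator T ↔ ∃ s, HasSV T s) ∧
    (∀ (T : H →L[ℂ] H) (s s' : ℕ → ℝ), HasSV T s → HasSV T s' → s = s') ∧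
    (∀ p : ℝ≥0∞, p ≠ 0 →
      (∀ (S T : H →L[ℂ] H) (r t : ℝ), InS p S r → InS p T t → ∃ u, InS p (S + T) u) ∧
      ∀ (c : ℂ) (T : H →L[ℂ] H) (t : ℝ), InS p T t → InS p (c • T) (‖c‖ * t)) ∧
    ∀ p q : ℝ≥0∞, p ≠ 0 → q ≠ 0 → p ≠ q → (Embeds H q p ↔ q = 2) :=
  ⟨fun T => ⟨fun h => svd H hH T h, fun ⟨s, hs⟩ => cpt H T s hs⟩,
    fun T s s' hs hs' =>
      unique_sv Q109.SH.t_SVU Q103.SH.t_SVL Q278.SH.t_BA H T s s' hs hs',
    fun p hp => lin H hH p hp, fun p q hp hq hpq => mainT H hH p q hp hq hpq⟩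

end Pool.Agent.Q66.SH
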