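import Pool.Agent.Q66.SH.Stm

/-!
# Assembly of project SH (helper66, row MP_dcad15_an)
-/

set_option autoImplicit false

open Filter Topology
open scoped ENNReal

namespace Pool.Agent.Q66.SH

theorem t_MAIN (hHB : S_HB) (hT : S_TEST) (h1 : S_GL1) (h2 : S_GL2) (hU : S_FINU) (hL : S_FINL)
    (hP : S_POS) : S_MAIN := by
  intro H _ _ _ _ hinf p q hp hq hpq
  obtain ⟨b⟩ := hHB H hinf
  constructor
  · intro hE
    by_contra hq2
    obtain ⟨A, hA⟩ := hT H b q p hq hE
    have hG : Glide b q p := by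
      rcases lt_or_gt_of_ne hq2 with h | h
      · exact h1 H b q p hq hp h A hA
      · exact h2 H b q p hp h A hA
    rcases lt_or_gt_of_ne hpq with h | h
    · exact hL H b q p hq hp h hG
    · exact hU H b q p hq hp h hG
  · rintro rfl
    exact hP H b p hp

theorem unique_sv (hU : S_SVU) (hL : S_SVL) (hB : S_BA) (H : Type) [NormedAddCommGroup H]
    [InnerProductSpace ℂ H] [CompleteSpace H] (T : H →L[ℂ] H) (s s' : ℕ → ℝ) (hs : HasSV T s)
    (hs' : HasSV T s') : s = s' := by
  have key : ∀ s s' : ℕ → ℝ, HasSV T s → HasSV T s' → ∀ n, s n ≤ s' n := by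
    intro s s' hs hs' n
    have h1 := hB H T n (s n) (hL H T s n hs)
    have h2 := hU H T s' n hs'
    exact (ENNReal.ofReal_le_ofReal_iff (hs'.2.1 n)).1 (h1.trans h2)
  funext n
  exact le_antisymm (key s s' hs hs' n) (key s' s hs' hs n)

end Pool.Agent.Q66.SH
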